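import Pool.Agent.Helper60.SB.Defs3

/-!
Module U18a: discretisation of integrable functions on a box of frequencies with a
de la Vallee Poussin kernel.
-/

open Finset MeasureTheory
open scoped ENNReal Real

namespace Pool.Agent.Helper37.SB

open Pool.Agent.Helper60.SB

/-- the Dirichlet sum -/
noncomputable def DS (m : ℕ) (t : ℝ) : ℂ := ∑ a ∈ range m, Complex.exp (Complex.I * a * t)

/-- the de la Vallee Poussin kernel -/
noncomputable def VP (n : ℕ) (t : ℝ) : ℝ := (‖DS (2 * n) t‖ ^ 2 - ‖DS n t‖ ^ 2) / n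

lemma DS_sq (m : ℕ) (t : ℝ) : ((‖DS m t‖ ^ 2 : ℝ) : ℂ) =
    ∑ a ∈ range m, ∑ b ∈ range m, Complex.exp (Complex.I * (((a : ℤ) - (b : ℤ) : ℤ) : ℂ) * t) := by
  have h1 : ((‖DS m t‖ ^ 2 : ℝ) : ℂ) = DS m t * (starRingEnd ℂ) (DS m t) := by
    rw [Complex.mul_conj, Complex.normSq_eq_norm_sq]
  rw [h1]
  unfold DS
  rw [map_sum, Finset.sum_mul_sum]
  refine Finset.sum_congr rfl fun a _ => Finset.sum_congr rfl fun b _ => ?_
  rw [← Complex.exp_conj, ← Complex.exp_add]
  congr 1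
  simp only [map_mul, Complex.conj_I, Complex.conj_ofReal, map_natCast]
  push_cast
  ring

/-- exponential sums over the grid -/
lemma grid_sum (N : ℕ) (l : ℤ) (hl : |l| < N) (x : ℝ) :
    ∑ c : Fin N, Complex.exp (Complex.I * l * ((2 * π * (c : ℕ) / N - x : ℝ) : ℂ)) =
      if l = 0 then (N : ℂ) else 0 := by
  have hN : 0 < N := by
    rcases Nat.eq_zero_or_pos N with h | h
    · subst h
      have := abs_nonneg l
      simp at hl
      omega
    · exact h
  have hN' : (N : ℂ) ≠ 0 := by exact_mod_cast hN.ne'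
  split_ifs with h0
  · subst h0
    simp
  · set ζ : ℂ := Complex.exp (2 * π * Complex.I * (l / N)) with hζ
    have h1 : ∀ c : Fin N, Complex.exp (Complex.I * l * ((2 * π * (c : ℕ) / N - x : ℝ) : ℂ)) =
        Complex.exp (-(Complex.I * l * x)) * ζ ^ (c : ℕ) := by
      intro c
      rw [hζ, ← Complex.exp_nat_mul, ← Complex.exp_add]
      congr 1
      push_cast
      field_simp
      ring
    simp_rw [h1]
    rw [← Finset.mul_sum, Fin.sum_univ_eq_sum_range (fun c => ζ ^ c)]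
    have h2 : ζ ≠ 1 := by
      intro h
      rw [hζ, Complex.exp_eq_one_iff] at h
      obtain ⟨n, hn⟩ := h
      have h3 : (l : ℂ) / N = n := by
        have hpi : (2 * π * Complex.I : ℂ) ≠ 0 := Complex.two_pi_I_ne_zero
        have : (2 * π * Complex.I : ℂ) * (l / N) = (2 * π * Complex.I) * n := by
          rw [hn]; ring
        exact mul_left_cancel₀ hpi this
      rw [div_eq_iff hN'] at h3
      have h4 : l = n * N := by exact_mod_cast h3
      rcases eq_or_ne n 0 with h5 | h5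
      · rw [h5, zero_mul] at h4
        exact h0 h4
      · have h6 : 1 ≤ |n| := Int.one_le_abs h5
        rw [h4, abs_mul, Nat.abs_cast] at hl
        have hNz : (0 : ℤ) < N := by exact_mod_cast hN
        nlinarith
    have h3 : ζ ^ N = 1 := by
      rw [hζ, ← Complex.exp_nat_mul, Complex.exp_eq_one_iff]
      exact ⟨l, by field_simp⟩
    have h4 : ∑ c ∈ range N, ζ ^ c = 0 := by
      rw [geom_sum_eq h2, h3, sub_self, zero_div]
    rw [h4, mul_zero]

/-- number of pairs with a given difference -/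
lemma pair_count (m : ℕ) (k : ℤ) :
    ∑ a ∈ range m, ∑ b ∈ range m, (if ((a : ℤ) - (b : ℤ) - k = 0) then (1 : ℂ) else 0) =
      ((m - k.natAbs : ℕ) : ℂ) := by
  rcases le_total 0 k with hk | hk
  · obtain ⟨κ, rfl⟩ := Int.eq_ofNat_of_zero_le hk
    rw [Finset.sum_comm]
    have h1 : ∀ b ∈ range m, ∑ a ∈ range m, (if ((a : ℤ) - (b : ℤ) - κ = 0) then (1 : ℂ) else 0) =
        if b < m - κ then 1 else 0 := by
      intro b hb
      have h2 : ∀ a : ℕ, ((a : ℤ) - (b : ℤ) - κ = 0) ↔ a = b + κ := by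
        intro a; omega
      simp_rw [h2]
      rw [Finset.sum_ite_eq']
      simp only [mem_range]
      congr 1
      simp only [mem_range] at hb
      apply propext
      omega
    rw [Finset.sum_congr rfl h1, ← Finset.sum_filter]
    simp only [Finset.sum_const, nsmul_eq_mul, mul_one]
    congr 1
    have : (range m).filter (fun b => b < m - κ) = range (m - κ) := by
      ext b
      simp only [mem_filter, mem_range]
      omega
    rw [this, card_range]
    simp
  · obtain ⟨κ, hκ⟩ := Int.eq_ofNat_of_zero_le (neg_nonneg.mpr hk)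
    have h1 : ∀ a ∈ range m, ∑ b ∈ range m, (if ((a : ℤ) - (b : ℤ) - k = 0) then (1 : ℂ) else 0) =
        if a < m - κ then 1 else 0 := by
      intro b hb
      have h2 : ∀ a : ℕ, ((b : ℤ) - (a : ℤ) - k = 0) ↔ a = b + κ := by
        intro a; omega
      simp_rw [h2]
      rw [Finset.sum_ite_eq']
      simp only [mem_range]
      congr 1
      simp only [mem_range] at hb
      apply propext
      omega
    rw [Finset.sum_congr rfl h1, ← Finset.sum_filter]
    simp only [Finset.sum_const, nsmul_eq_mul, mul_one]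
    congr 1
    have : (range m).filter (fun b => b < m - κ) = range (m - κ) := by
      ext b
      simp only [mem_filter, mem_range]
      omega
    rw [this, card_range]
    omega

lemma DS_grid (N m : ℕ) (k : ℤ) (h : m + k.natAbs ≤ N) (x : ℝ) :
    ∑ c : Fin N, ((‖DS m (2 * π * (c : ℕ) / N - x)‖ ^ 2 : ℝ) : ℂ) *
      Complex.exp (Complex.I * (-k : ℤ) * ((2 * π * (c : ℕ) / N - x : ℝ) : ℂ)) =
      N * ((m - k.natAbs : ℕ) : ℂ) := by
  have h1 : ∀ c : Fin N, ((‖DS m (2 * π * (c : ℕ) / N - x)‖ ^ 2 : ℝ) : ℂ) *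
      Complex.exp (Complex.I * (-k : ℤ) * ((2 * π * (c : ℕ) / N - x : ℝ) : ℂ)) =
      ∑ a ∈ range m, ∑ b ∈ range m,
        Complex.exp (Complex.I * (((a : ℤ) - (b : ℤ) - k : ℤ) : ℂ) *
          ((2 * π * (c : ℕ) / N - x : ℝ) : ℂ)) := by
    intro c
    rw [DS_sq, Finset.sum_mul]
    refine Finset.sum_congr rfl fun a _ => ?_
    rw [Finset.sum_mul]
    refine Finset.sum_congr rfl fun b _ => ?_
    rw [← Complex.exp_add]
    congr 1
    push_cast
    ring
  simp_rw [h1]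
  rw [Finset.sum_comm]
  have h2 : ∀ a ∈ range m, ∑ c : Fin N, ∑ b ∈ range m,
        Complex.exp (Complex.I * (((a : ℤ) - (b : ℤ) - k : ℤ) : ℂ) *
          ((2 * π * (c : ℕ) / N - x : ℝ) : ℂ)) =
      ∑ b ∈ range m, (N : ℂ) * (if ((a : ℤ) - (b : ℤ) - k = 0) then (1 : ℂ) else 0) := by
    intro a ha
    rw [Finset.sum_comm]
    refine Finset.sum_congr rfl fun b hb => ?_
    rw [grid_sum]
    · split_ifs <;> simp
    · rw [mem_range] at ha hb
      rw [abs_lt]
      omega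
  rw [Finset.sum_congr rfl h2]
  simp_rw [← Finset.mul_sum]
  rw [pair_count]

lemma VP_grid (n : ℕ) (hn : 0 < n) (k : ℤ) (hk : k.natAbs ≤ n) (x : ℝ) :
    ∑ c : Fin (4 * n), ((VP n (2 * π * (c : ℕ) / (4 * n : ℕ) - x) : ℝ) : ℂ) *
      Complex.exp (Complex.I * (-k : ℤ) * ((2 * π * (c : ℕ) / (4 * n : ℕ) - x : ℝ) : ℂ)) =
      (4 * n : ℕ) := by
  have h1 := DS_grid (4 * n) (2 * n) k (by omega) x
  have h2 := DS_grid (4 * n) n k (by omega) x
  have hn' : (n : ℂ) ≠ 0 := by exact_mod_cast hn.ne'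
  have h3 : ∀ c : Fin (4 * n), ((VP n (2 * π * (c : ℕ) / (4 * n : ℕ) - x) : ℝ) : ℂ) *
      Complex.exp (Complex.I * (-k : ℤ) * ((2 * π * (c : ℕ) / (4 * n : ℕ) - x : ℝ) : ℂ)) =
      (((‖DS (2 * n) (2 * π * (c : ℕ) / (4 * n : ℕ) - x)‖ ^ 2 : ℝ) : ℂ) *
        Complex.exp (Complex.I * (-k : ℤ) * ((2 * π * (c : ℕ) / (4 * n : ℕ) - x : ℝ) : ℂ)) -
      ((‖DS n (2 * π * (c : ℕ) / (4 * n : ℕ) - x)‖ ^ 2 : ℝ) : ℂ) *
        Complex.exp (Complex.I * (-k : ℤ) * ((2 * π * (c : ℕ) / (4 * n : ℕ) - x : ℝ) : ℂ))) / n := by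
    intro c
    unfold VP
    rw [Complex.ofReal_div, Complex.ofReal_sub, Complex.ofReal_natCast]
    ring
  simp_rw [h3]
  rw [← Finset.sum_div, Finset.sum_sub_distrib, h1, h2, div_eq_iff hn']
  rw [Nat.cast_sub (by omega), Nat.cast_sub hk]
  push_cast
  ring

lemma VP_abs_grid (n : ℕ) (hn : 0 < n) (x : ℝ) :
    ∑ c : Fin (4 * n), |VP n (2 * π * (c : ℕ) / (4 * n : ℕ) - x)| ≤ 3 * (4 * n : ℕ) := by
  have h1 := DS_grid (4 * n) (2 * n) 0 (by simp; omega) x
  have h2 := DS_grid (4 * n) n 0 (by simp; omega) x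
  simp only [neg_zero, Int.cast_zero, mul_zero, zero_mul, Complex.exp_zero, mul_one,
    Int.natAbs_zero, Nat.sub_zero] at h1 h2
  have hn' : (0 : ℝ) < n := by exact_mod_cast hn
  have h1' : ∑ c : Fin (4 * n), ‖DS (2 * n) (2 * π * (c : ℕ) / (4 * n : ℕ) - x)‖ ^ 2 =
      (4 * n : ℕ) * (2 * n : ℕ) := by exact_mod_cast h1
  have h2' : ∑ c : Fin (4 * n), ‖DS n (2 * π * (c : ℕ) / (4 * n : ℕ) - x)‖ ^ 2 =
      (4 * n : ℕ) * (n : ℕ) := by exact_mod_cast h2
  calc ∑ c : Fin (4 * n), |VP n (2 * π * (c : ℕ) / (4 * n : ℕ) - x)|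
      ≤ ∑ c : Fin (4 * n), (‖DS (2 * n) (2 * π * (c : ℕ) / (4 * n : ℕ) - x)‖ ^ 2 +
          ‖DS n (2 * π * (c : ℕ) / (4 * n : ℕ) - x)‖ ^ 2) / n := by
        refine Finset.sum_le_sum fun c _ => ?_
        unfold VP
        rw [abs_div, abs_of_pos hn']
        refine div_le_div_of_nonneg_right ?_ hn'.le
        refine (abs_sub _ _).trans ?_
        rw [abs_of_nonneg (by positivity), abs_of_nonneg (by positivity)]
    _ = 3 * (4 * n : ℕ) := by
        rw [← Finset.sum_div, Finset.sum_add_distrib, h1', h2']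
        push_cast
        field_simp
        ring

lemma VP_continuous (n : ℕ) : Continuous (VP n) := by
  unfold VP DS
  fun_prop

lemma ex_neg {d : ℕ} (k : Fin d → ℤ) (x : Fin d → ℝ) :
    ex (-k) x = ∏ j, Complex.exp (Complex.I * (-k j : ℤ) * (x j : ℂ)) := by
  unfold ex
  rw [← Complex.exp_sum, Finset.mul_sum]
  congr 1
  refine Finset.sum_congr rfl fun j _ => ?_
  rw [Pi.neg_apply, mul_assoc]

/-- the grid point of index `c` -/
noncomputable def gp {d : ℕ} (s : Fin d → ℕ) (c : (j : Fin d) → Fin (4 * 2 ^ s j)) (j : Fin d) :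
    ℝ := 2 * π * (c j : ℕ) / (4 * 2 ^ s j : ℕ)

/-- the normalised kernel at the grid point of index `c` -/
noncomputable def ker {d : ℕ} (s : Fin d → ℕ) (c : (j : Fin d) → Fin (4 * 2 ^ s j))
    (x : Fin d → ℝ) : ℝ := ∏ j, VP (2 ^ s j) (gp s c j - x j) / (4 * 2 ^ s j : ℕ)

lemma ker_continuous {d : ℕ} (s : Fin d → ℕ) (c : (j : Fin d) → Fin (4 * 2 ^ s j)) :
    Continuous (ker s c) := by
  unfold ker
  refine continuous_finsetProd _ fun j _ => ?_
  refine Continuous.div_const ((VP_continuous _).comp ?_) _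
  fun_prop

lemma ker_sum {d : ℕ} (s : Fin d → ℕ) (k : Fin d → ℤ) (hk : ∀ j, |k j| ≤ 2 ^ s j)
    (x : Fin d → ℝ) : ∑ c, (ker s c x : ℂ) * ex (-k) (gp s c) = ex (-k) x := by
  have h1 : ∀ c : (j : Fin d) → Fin (4 * 2 ^ s j), (ker s c x : ℂ) * ex (-k) (gp s c) =
      ∏ j, ((VP (2 ^ s j) (2 * π * (c j : ℕ) / (4 * 2 ^ s j : ℕ) - x j) : ℝ) : ℂ) *
        Complex.exp (Complex.I * (-k j : ℤ) *
          ((2 * π * (c j : ℕ) / (4 * 2 ^ s j : ℕ) - x j : ℝ) : ℂ)) *
        (Complex.exp (Complex.I * (-k j : ℤ) * (x j : ℂ)) / (4 * 2 ^ s j : ℕ)) := by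
    intro c
    unfold ker gp
    rw [ex_neg, Complex.ofReal_prod, ← Finset.prod_mul_distrib]
    refine Finset.prod_congr rfl fun j _ => ?_
    have h2 : Complex.exp (Complex.I * (-k j : ℤ) *
        ((2 * π * (c j : ℕ) / (4 * 2 ^ s j : ℕ) : ℝ) : ℂ)) =
        Complex.exp (Complex.I * (-k j : ℤ) *
          ((2 * π * (c j : ℕ) / (4 * 2 ^ s j : ℕ) - x j : ℝ) : ℂ)) *
        Complex.exp (Complex.I * (-k j : ℤ) * (x j : ℂ)) := by
      rw [← Complex.exp_add]
      congr 1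
      rw [Complex.ofReal_sub]
      ring
    rw [h2, Complex.ofReal_div, Complex.ofReal_natCast]
    ring
  simp_rw [h1]
  have h3 := Finset.prod_univ_sum (fun j : Fin d => (Finset.univ : Finset (Fin (4 * 2 ^ s j))))
    (fun j (c : Fin (4 * 2 ^ s j)) =>
      ((VP (2 ^ s j) (2 * π * (c : ℕ) / (4 * 2 ^ s j : ℕ) - x j) : ℝ) : ℂ) *
        Complex.exp (Complex.I * (-k j : ℤ) *
          ((2 * π * (c : ℕ) / (4 * 2 ^ s j : ℕ) - x j : ℝ) : ℂ)) *
        (Complex.exp (Complex.I * (-k j : ℤ) * (x j : ℂ)) / (4 * 2 ^ s j : ℕ)))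
  rw [Fintype.piFinset_univ] at h3
  rw [← h3, ex_neg]
  refine Finset.prod_congr rfl fun j _ => ?_
  rw [← Finset.sum_mul, VP_grid (2 ^ s j) (by positivity) (k j) (by
    have := hk j
    zify
    exact this) (x j)]
  have h4 : ((4 * 2 ^ s j : ℕ) : ℂ) ≠ 0 := by
    exact_mod_cast (by positivity : (4 * 2 ^ s j : ℕ) ≠ 0)
  field_simp

lemma ker_abs_sum {d : ℕ} (s : Fin d → ℕ) (x : Fin d → ℝ) : ∑ c, |ker s c x| ≤ 3 ^ d := by
  have h1 : ∀ c : (j : Fin d) → Fin (4 * 2 ^ s j), |ker s c x| =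
      ∏ j, |VP (2 ^ s j) (2 * π * (c j : ℕ) / (4 * 2 ^ s j : ℕ) - x j)| / (4 * 2 ^ s j : ℕ) := by
    intro c
    unfold ker gp
    rw [Finset.abs_prod]
    refine Finset.prod_congr rfl fun j _ => ?_
    rw [abs_div, Nat.abs_cast]
  simp_rw [h1]
  have h3 := Finset.prod_univ_sum (fun j : Fin d => (Finset.univ : Finset (Fin (4 * 2 ^ s j))))
    (fun j (c : Fin (4 * 2 ^ s j)) =>
      |VP (2 ^ s j) (2 * π * (c : ℕ) / (4 * 2 ^ s j : ℕ) - x j)| / (4 * 2 ^ s j : ℕ))
  rw [Fintype.piFinset_univ] at h3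
  rw [← h3]
  calc _ ≤ ∏ _j : Fin d, (3 : ℝ) := by
        refine Finset.prod_le_prod (fun j _ => by positivity) fun j _ => ?_
        rw [← Finset.sum_div, div_le_iff₀ (by positivity)]
        exact VP_abs_grid (2 ^ s j) (by positivity) (x j)
    _ = 3 ^ d := by simp

/-- discretisation: on frequencies in a box, the Fourier coefficients of an `L_1` function are
those of a discrete measure with few atoms -/
theorem discretize {d : ℕ} (s : Fin d → ℕ) : ∃ (N : ℕ) (t : Fin N → (Fin d → ℝ)),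
    (N : ℝ) ≤ 8 ^ d * 2 ^ (∑ j, s j) ∧ ∀ h : (Fin d → ℝ) → ℂ, Integrable h (tor d) →
      ∃ w : Fin N → ℂ, ∑ i, ‖w i‖ ≤ 3 ^ d * ∫ x, ‖h x‖ ∂(tor d) ∧
        ∀ k : Fin d → ℤ, (∀ j, |k j| ≤ 2 ^ s j) → fc h k = ∑ i, w i * ex (-k) (t i) := by
  let I := (j : Fin d) → Fin (4 * 2 ^ s j)
  let q : I ≃ Fin (Fintype.card I) := Fintype.equivFin I
  refine ⟨Fintype.card I, fun i => gp s (q.symm i), ?_, ?_⟩
  · have h1 : Fintype.card I = ∏ j, (4 * 2 ^ s j) := by
      simp [I]
    rw [h1, Finset.prod_mul_distrib, Finset.prod_pow_eq_pow_sum]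
    push_cast
    refine mul_le_mul_of_nonneg_right ?_ (by positivity)
    simp only [Finset.prod_const, Finset.card_univ, Fintype.card_fin]
    exact pow_le_pow_left₀ (by norm_num) (by norm_num) _
  · intro h hh
    have hint : ∀ c : I, Integrable (fun x => h x * (ker s c x : ℂ)) (tor d) := by
      intro c
      have h1 : AEStronglyMeasurable (fun x => (ker s c x : ℂ)) (tor d) :=
        (Complex.continuous_ofReal.comp (ker_continuous s c)).aestronglyMeasurable
      refine Integrable.mul_bdd (c := 3 ^ d) hh h1 (Filter.Eventually.of_forall fun x => ?_)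
      rw [Complex.norm_real, Real.norm_eq_abs]
      refine le_trans ?_ (ker_abs_sum s x)
      exact Finset.single_le_sum (f := fun c => |ker s c x|) (fun _ _ => abs_nonneg _)
        (Finset.mem_univ c)
    refine ⟨fun i => ∫ x, h x * (ker s (q.symm i) x : ℂ) ∂(tor d), ?_, ?_⟩
    · rw [Equiv.sum_comp q.symm (fun c => ‖∫ x, h x * (ker s c x : ℂ) ∂(tor d)‖)]
      calc ∑ c : I, ‖∫ x, h x * (ker s c x : ℂ) ∂(tor d)‖
          ≤ ∑ c : I, ∫ x, ‖h x * (ker s c x : ℂ)‖ ∂(tor d) :=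
            Finset.sum_le_sum fun c _ => norm_integral_le_integral_norm _
        _ = ∫ x, ∑ c : I, ‖h x * (ker s c x : ℂ)‖ ∂(tor d) :=
            (integral_finsetSum _ fun c _ => (hint c).norm).symm
        _ ≤ ∫ x, 3 ^ d * ‖h x‖ ∂(tor d) := by
            refine integral_mono (integrable_finsetSum _ fun c _ => (hint c).norm)
              (hh.norm.const_mul _) fun x => ?_
            simp only [norm_mul, Complex.norm_real, Real.norm_eq_abs]
            rw [← Finset.mul_sum, mul_comm]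
            exact mul_le_mul_of_nonneg_right (ker_abs_sum s x) (norm_nonneg _)
        _ = 3 ^ d * ∫ x, ‖h x‖ ∂(tor d) := integral_const_mul _ _
    · intro k hk
      rw [Equiv.sum_comp q.symm (fun c => (∫ x, h x * (ker s c x : ℂ) ∂(tor d)) *
        ex (-k) (gp s c))]
      simp_rw [← integral_mul_const]
      rw [← integral_finsetSum _ fun c _ => (hint c).mul_const _]
      unfold fc
      refine integral_congr_ae (Filter.Eventually.of_forall fun x => ?_)
      simp only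
      rw [← ker_sum s k hk x, Finset.mul_sum]
      exact Finset.sum_congr rfl fun c _ => by ring

end Pool.Agent.Helper37.SB
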